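import Mathlib

set_option autoImplicit false

/-!
# The self-referencing LZ77 size of a suffix is at most quadratic in the size of the string

A string with `k` factors is generated by a straight-line program with concatenations and powers,
of height `O(k)` and size `O(k ^ 2)`; cutting out a suffix adds `O(k)` new nodes, and a string in
such a program of size `m` has at most `2 m + 1` factors.
-/

namespace Pool.Agent.Results.MP_37e11d_lc.SuffixQuadratic

variable {α : Type}

/-- The factor of length `l` of `S` starting at position `u` (positions are counted from `0`) also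
occurs in `S` starting at some position `j < u` (the two occurrences may overlap). -/
def Occ (S : List α) (u l : ℕ) : Prop :=
  ∃ j < u, (S.drop j).take l = (S.drop u).take l

open Classical in
/-- The length of the factor which starts at position `u`: the least `l ≥ 1` such that the factor of
length `l` at position `u` has no occurrence starting at an earlier position; if there is no such
`l` within the string, the factor is the whole rest of the string. -/
noncomputable def nextLen (S : List α) (u : ℕ) : ℕ :=
  if h : ∃ l, 1 ≤ l ∧ u + l ≤ S.length ∧ ¬ Occ S u l then Nat.find h else S.length - u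

open Classical in
theorem nextLen_pos (S : List α) {u : ℕ} (h : u < S.length) : 1 ≤ nextLen S u := by
  unfold nextLen
  split_ifs with h1
  · exact (Nat.find_spec h1).1
  · omega

/-- The number of factors of the greedy factorization of the rest of `S` from position `u` on. -/
noncomputable def zsFrom (S : List α) (u : ℕ) : ℕ :=
  if h : u < S.length then 1 + zsFrom S (u + nextLen S u) else 0
termination_by S.length - u
decreasing_by have := nextLen_pos S h; omega

/-- The number of factors of the self-referencing LZ77 factorization of `S`. -/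
noncomputable def zs (S : List α) : ℕ := zsFrom S 0

/-! ### Elementary facts on factors -/

theorem take_drop_eq_iff (S T : List α) (i j l : ℕ) :
    (S.drop i).take l = (T.drop j).take l ↔ ∀ t < l, S[i + t]? = T[j + t]? := by
  constructor
  · intro h t ht
    have := congrArg (fun L => L[t]?) h
    simpa [List.getElem?_take, List.getElem?_drop, ht] using this
  · intro h
    apply List.ext_getElem?
    intro t
    by_cases ht : t < l
    · simp [List.getElem?_drop, ht, h t ht]
    · simp [ht]

theorem occ_iff (S : List α) (u l : ℕ) :
    Occ S u l ↔ ∃ j < u, ∀ t < l, S[j + t]? = S[u + t]? := by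
  simp only [Occ, take_drop_eq_iff]

open Classical in
theorem nextLen_le (S : List α) {u : ℕ} (h : u < S.length) : u + nextLen S u ≤ S.length := by
  unfold nextLen
  split_ifs with h1
  · exact (Nat.find_spec h1).2.1
  · omega

open Classical in
/-- All shorter factors occur earlier. -/
theorem occ_of_lt_nextLen (S : List α) {u l : ℕ} (hl : 1 ≤ l) (h : l < nextLen S u) :
    Occ S u l := by
  unfold nextLen at h
  split_ifs at h with h1
  · by_contra hc
    have h2 := Nat.find_min h1 h
    have h3 := (Nat.find_spec h1).2.1
    exact h2 ⟨hl, by omega, hc⟩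
  · by_contra hc
    exact h1 ⟨l, hl, by omega, hc⟩

open Classical in
/-- A lower bound of the length of the next factor. -/
theorem le_nextLen (S : List α) {u r : ℕ} (hr : u + r ≤ S.length)
    (h : ∀ l, 1 ≤ l → l < r → Occ S u l) : r ≤ nextLen S u := by
  unfold nextLen
  split_ifs with h1
  · obtain ⟨h2, h3, h4⟩ := Nat.find_spec h1
    by_contra hc
    exact h4 (h _ h2 (by omega))
  · omega

/-! ### Parsings -/

/-- The nonempty string `g` may be appended to `y` as one piece. -/
def Piece (y g : List α) : Prop :=
  g ≠ [] ∧ (g.length = 1 ∨ ∃ j < y.length, ∀ t < g.length - 1, (y ++ g)[j + t]? = g[t]?)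

/-- `w` can be appended to `y` in `m` pieces. -/
inductive Par : List α → List α → ℕ → Prop
  | nil (y : List α) : Par y [] 0
  | cons (y g w : List α) (m : ℕ) : Piece y g → Par (y ++ g) w m → Par y (g ++ w) (m + 1)

theorem Par.append {y u v : List α} {m n : ℕ} (h : Par y u m) (h' : Par (y ++ u) v n) :
    Par y (u ++ v) (m + n) := by
  induction h with
  | nil y => simpa using h'
  | cons y g w m hg _ ih =>
    rw [List.append_assoc]
    have := ih (by rw [List.append_assoc]; exact h')
    have := Par.cons y g (w ++ v) (m + n) hg this
    rwa [show m + n + 1 = m + 1 + n from by omega] at this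

theorem Par.single {y g : List α} (h : Piece y g) : Par y g 1 := by
  simpa using Par.cons y g [] 0 h (Par.nil _)

/-- The greedy factorization is at least as good as every parsing. -/
theorem zsFrom_le {y w : List α} {m : ℕ} (h : Par y w m) : ∀ (S : List α), S = y ++ w →
    ∀ u, y.length ≤ u → zsFrom S u ≤ m := by
  induction h with
  | nil y =>
    intro S hS u hu
    have : ¬ u < S.length := by rw [hS]; simpa using hu
    rw [zsFrom, dif_neg this]
  | cons y g w m hg _ ih =>
    intro S hS u hu
    by_cases hu2 : (y ++ g).length ≤ u
    · have := ih S (by rw [hS, List.append_assoc]) u hu2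
      omega
    · have hlen : S.length = y.length + g.length + w.length := by
        rw [hS]; simp only [List.length_append]; omega
      rw [List.length_append] at hu2
      have hu3 : u < S.length := by omega
      rw [zsFrom, dif_pos hu3]
      have key : y.length + g.length - u ≤ nextLen S u := by
        apply le_nextLen S (by omega)
        intro l hl hl2
        rw [occ_iff]
        rcases hg.2 with h1 | ⟨j, hj, h1⟩
        · omega
        · refine ⟨j + (u - y.length), by omega, ?_⟩
          intro t ht
          have h2 := h1 (u - y.length + t) (by omega)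
          have e1 : S[j + (u - y.length) + t]? = (y ++ g)[j + (u - y.length + t)]? := by
            rw [hS, ← List.append_assoc, List.getElem?_append_left
              (by rw [List.length_append]; omega)]
            congr 1
            omega
          have e2 : S[u + t]? = g[u - y.length + t]? := by
            rw [hS, ← List.append_assoc, List.getElem?_append_left
              (by rw [List.length_append]; omega), List.getElem?_append_right (by omega)]
            congr 1
            omega
          rw [e1, e2, h2]
      have := ih S (by rw [hS, List.append_assoc]) (u + nextLen S u)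
        (by rw [List.length_append]; omega)
      omega

/-! ### Programs with concatenations and powers -/

/-- The power `u ^ e` of a string. -/
def pw (u : List α) (e : ℕ) : List α := (List.replicate e u).flatten

theorem pw_zero (u : List α) : pw u 0 = [] := by simp [pw]

theorem pw_succ (u : List α) (e : ℕ) : pw u (e + 1) = u ++ pw u e := by
  simp [pw, List.replicate_succ]

theorem pw_succ' (u : List α) (e : ℕ) : pw u (e + 1) = pw u e ++ u := by
  simp [pw, List.replicate_succ']

theorem length_pw (u : List α) (e : ℕ) : (pw u e).length = e * u.length := by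
  simp [pw]

theorem pw_nil (e : ℕ) : pw ([] : List α) e = [] := by
  apply List.eq_nil_of_length_eq_zero
  simp [length_pw]

/-- The string `w` is generated with height at most `n` by the nodes in `D`. -/
inductive Ht (D : Finset (List α)) : ℕ → List α → Prop
  | short (n : ℕ) (w : List α) : w ∈ D → w.length ≤ 1 → Ht D n w
  | cat (n : ℕ) (u v : List α) : u ++ v ∈ D → Ht D n u → Ht D n v → Ht D (n + 1) (u ++ v)
  | pow (n : ℕ) (u : List α) (e : ℕ) : pw u e ∈ D → Ht D n u → Ht D (n + 1) (pw u e)

theorem Ht.mono {D D' : Finset (List α)} (hD : D ⊆ D') {n : ℕ} {w : List α} (h : Ht D n w) :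
    ∀ n', n ≤ n' → Ht D' n' w := by
  induction h with
  | short n w hw hl => intro n' _; exact .short _ _ (hD hw) hl
  | cat n u v hw _ _ ih1 ih2 =>
    intro n' hn
    obtain ⟨k, rfl⟩ : ∃ k, n' = k + 1 := ⟨n' - 1, by omega⟩
    exact .cat _ _ _ (hD hw) (ih1 k (by omega)) (ih2 k (by omega))
  | pow n u e hw _ ih =>
    intro n' hn
    obtain ⟨k, rfl⟩ : ∃ k, n' = k + 1 := ⟨n' - 1, by omega⟩
    exact .pow _ _ _ (hD hw) (ih k (by omega))

theorem prefix_append_cases {p u v : List α} (h : p <+: u ++ v) :
    p <+: u ∨ ∃ q, p = u ++ q ∧ q <+: v := by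
  rcases List.prefix_or_prefix_of_prefix h (List.prefix_append u v) with h1 | ⟨q, rfl⟩
  · exact Or.inl h1
  · exact Or.inr ⟨q, rfl, (List.prefix_append_right_inj u).1 h⟩

theorem suffix_append_cases {p u v : List α} (h : p <:+ u ++ v) :
    p <:+ v ∨ ∃ q, p = q ++ v ∧ q <:+ u := by
  rcases List.suffix_or_suffix_of_suffix h (List.suffix_append u v) with h1 | ⟨q, rfl⟩
  · exact Or.inl h1
  · refine Or.inr ⟨q, rfl, ?_⟩
    obtain ⟨t, ht⟩ := h
    rw [← List.append_assoc] at ht
    exact ⟨t, List.append_cancel_right ht⟩

theorem prefix_pw {u : List α} : ∀ {e : ℕ} {p : List α}, p <+: pw u e →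
    ∃ (e' : ℕ) (q : List α), p = pw u e' ++ q ∧ q <+: u := by
  intro e
  induction e with
  | zero =>
    intro p hp
    rw [pw_zero, List.prefix_nil] at hp
    exact ⟨0, [], by simp [hp, pw_zero], List.nil_prefix⟩
  | succ e ih =>
    intro p hp
    rw [pw_succ] at hp
    rcases prefix_append_cases hp with h | ⟨q, rfl, h⟩
    · exact ⟨0, p, by simp [pw_zero], h⟩
    · obtain ⟨e', q', rfl, h'⟩ := ih h
      exact ⟨e' + 1, q', by rw [pw_succ, List.append_assoc], h'⟩

theorem suffix_pw {u : List α} : ∀ {e : ℕ} {p : List α}, p <:+ pw u e →
    ∃ (e' : ℕ) (q : List α), p = q ++ pw u e' ∧ q <:+ u := by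
  intro e
  induction e with
  | zero =>
    intro p hp
    rw [pw_zero, List.suffix_nil] at hp
    exact ⟨0, [], by simp [hp, pw_zero], List.nil_suffix⟩
  | succ e ih =>
    intro p hp
    rw [pw_succ'] at hp
    rcases suffix_append_cases hp with h | ⟨q, rfl, h⟩
    · exact ⟨0, p, by simp [pw_zero], h⟩
    · obtain ⟨e', q', rfl, h'⟩ := ih h
      exact ⟨e' + 1, q', by rw [pw_succ', List.append_assoc], h'⟩

open Classical in
/-- Cutting out an initial part of a generated string. -/
theorem Ht.pre {D : Finset (List α)} {n : ℕ} {w : List α} (h : Ht D n w) :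
    ∀ p, p <+: w → ∃ D', D ⊆ D' ∧ D'.card ≤ D.card + (2 * n + 1) ∧ Ht D' (n + 1) p := by
  induction h with
  | short n w hw hl =>
    intro p hp
    refine ⟨insert p D, Finset.subset_insert _ _, ?_, ?_⟩
    · have := Finset.card_insert_le p D
      omega
    · exact .short _ _ (Finset.mem_insert_self _ _) (hp.length_le.trans hl)
  | cat n u v hw hu hv ih1 ih2 =>
    intro p hp
    rcases prefix_append_cases hp with h | ⟨q, rfl, h⟩
    · obtain ⟨D', h1, h2, h3⟩ := ih1 p h
      exact ⟨D', h1, by omega, h3.mono subset_rfl _ (by omega)⟩
    · obtain ⟨D', h1, h2, h3⟩ := ih2 q h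
      have hs : D' ⊆ insert (u ++ q) D' := Finset.subset_insert _ _
      refine ⟨insert (u ++ q) D', h1.trans hs, ?_, ?_⟩
      · have := Finset.card_insert_le (u ++ q) D'
        omega
      · exact .cat _ _ _ (Finset.mem_insert_self _ _) (hu.mono (h1.trans hs) _ (by omega))
          (h3.mono hs _ le_rfl)
  | pow n u e hw hu ih =>
    intro p hp
    obtain ⟨e', q, rfl, hq⟩ := prefix_pw hp
    obtain ⟨D', h1, h2, h3⟩ := ih q hq
    have hs : D' ⊆ insert (pw u e') D' := Finset.subset_insert _ _
    have hs' : insert (pw u e') D' ⊆ insert (pw u e' ++ q) (insert (pw u e') D') :=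
      Finset.subset_insert _ _
    refine ⟨insert (pw u e' ++ q) (insert (pw u e') D'), h1.trans (hs.trans hs'), ?_, ?_⟩
    · have := Finset.card_insert_le (pw u e' ++ q) (insert (pw u e') D')
      have := Finset.card_insert_le (pw u e') D'
      omega
    · refine .cat _ _ _ (Finset.mem_insert_self _ _) ?_ (h3.mono (hs.trans hs') _ le_rfl)
      exact .pow _ _ _ (hs' (Finset.mem_insert_self _ _))
        (hu.mono (h1.trans (hs.trans hs')) _ (by omega))

open Classical in
/-- Cutting out a final part of a generated string. -/
theorem Ht.suf {D : Finset (List α)} {n : ℕ} {w : List α} (h : Ht D n w) :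
    ∀ p, p <:+ w → ∃ D', D ⊆ D' ∧ D'.card ≤ D.card + (2 * n + 1) ∧ Ht D' (n + 1) p := by
  induction h with
  | short n w hw hl =>
    intro p hp
    refine ⟨insert p D, Finset.subset_insert _ _, ?_, ?_⟩
    · have := Finset.card_insert_le p D
      omega
    · exact .short _ _ (Finset.mem_insert_self _ _) (hp.length_le.trans hl)
  | cat n u v hw hu hv ih1 ih2 =>
    intro p hp
    rcases suffix_append_cases hp with h | ⟨q, rfl, h⟩
    · obtain ⟨D', h1, h2, h3⟩ := ih2 p h
      exact ⟨D', h1, by omega, h3.mono subset_rfl _ (by omega)⟩
    · obtain ⟨D', h1, h2, h3⟩ := ih1 q h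
      have hs : D' ⊆ insert (q ++ v) D' := Finset.subset_insert _ _
      refine ⟨insert (q ++ v) D', h1.trans hs, ?_, ?_⟩
      · have := Finset.card_insert_le (q ++ v) D'
        omega
      · exact .cat _ _ _ (Finset.mem_insert_self _ _) (h3.mono hs _ le_rfl)
          (hv.mono (h1.trans hs) _ (by omega))
  | pow n u e hw hu ih =>
    intro p hp
    obtain ⟨e', q, rfl, hq⟩ := suffix_pw hp
    obtain ⟨D', h1, h2, h3⟩ := ih q hq
    have hs : D' ⊆ insert (pw u e') D' := Finset.subset_insert _ _
    have hs' : insert (pw u e') D' ⊆ insert (q ++ pw u e') (insert (pw u e') D') :=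
      Finset.subset_insert _ _
    refine ⟨insert (q ++ pw u e') (insert (pw u e') D'), h1.trans (hs.trans hs'), ?_, ?_⟩
    · have := Finset.card_insert_le (q ++ pw u e') (insert (pw u e') D')
      have := Finset.card_insert_le (pw u e') D'
      omega
    · refine .cat _ _ _ (Finset.mem_insert_self _ _) (h3.mono (hs.trans hs') _ le_rfl) ?_
      exact .pow _ _ _ (hs' (Finset.mem_insert_self _ _))
        (hu.mono (h1.trans (hs.trans hs')) _ (by omega))

/-! ### From programs to parsings -/

open Classical in
/-- The nodes which are not longer than `w`, occur in `y ++ w` and do not occur in `y`. -/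
noncomputable def fresh (D : Finset (List α)) (y w : List α) : Finset (List α) :=
  D.filter (fun x => x.length ≤ w.length ∧ x <:+: (y ++ w) ∧ ¬ x <:+: y)

theorem mem_fresh {D : Finset (List α)} {y w x : List α} : x ∈ fresh D y w ↔
    x ∈ D ∧ x.length ≤ w.length ∧ x <:+: (y ++ w) ∧ ¬ x <:+: y := by
  simp [fresh]

theorem fresh_left {D : Finset (List α)} {y u v : List α} : fresh D y u ⊆ fresh D y (u ++ v) := by
  intro x hx
  rw [mem_fresh] at hx ⊢
  obtain ⟨h1, h2, h3, h4⟩ := hx
  refine ⟨h1, by rw [List.length_append]; omega, ?_, h4⟩
  rw [← List.append_assoc]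
  exact h3.trans (List.prefix_append _ _).isInfix

theorem fresh_right {D : Finset (List α)} {y u v : List α} :
    fresh D (y ++ u) v ⊆ fresh D y (u ++ v) := by
  intro x hx
  rw [mem_fresh] at hx ⊢
  obtain ⟨h1, h2, h3, h4⟩ := hx
  rw [List.append_assoc] at h3
  exact ⟨h1, by rw [List.length_append]; omega, h3,
    fun h => h4 (h.trans (List.prefix_append _ _).isInfix)⟩

/-- A string which occurs in `y` can be appended in at most one piece. -/
theorem par_of_infix {y w : List α} (h : w <:+: y) : ∃ m ≤ 1, Par y w m := by
  by_cases hw : w = []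
  · subst hw
    exact ⟨0, by omega, .nil _⟩
  · refine ⟨1, le_rfl, Par.single ⟨hw, ?_⟩⟩
    obtain ⟨s, t, hst⟩ := h
    have hpos : 0 < w.length := List.length_pos_iff.2 hw
    right
    refine ⟨s.length, ?_, ?_⟩
    · rw [← hst]
      simp only [List.length_append]
      omega
    · intro i hi
      rw [← hst]
      simp only [List.append_assoc]
      rw [List.getElem?_append_right (by omega), List.getElem?_append_left (by omega)]
      congr 1
      omega

theorem par_of_ht {D : Finset (List α)} {n : ℕ} {w : List α} (h : Ht D n w) :
    ∀ y, ∃ m, Par y w m ∧ m ≤ 1 + 2 * (fresh D y w).card := by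
  induction h with
  | short n w hw hl =>
    intro y
    by_cases h0 : w = []
    · subst h0
      exact ⟨0, .nil _, by omega⟩
    · have hpos : 0 < w.length := List.length_pos_iff.2 h0
      exact ⟨1, Par.single ⟨h0, Or.inl (by omega)⟩, by omega⟩
  | cat n u v hw _ _ ih1 ih2 =>
    intro y
    by_cases hy : (u ++ v) <:+: y
    · obtain ⟨m, hm, hp⟩ := par_of_infix hy
      exact ⟨m, hp, by omega⟩
    by_cases hu : u = []
    · subst hu
      simpa using ih2 y
    by_cases hv : v = []
    · subst hv
      simpa using ih1 y
    have hup : 0 < u.length := List.length_pos_iff.2 hu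
    have hvp : 0 < v.length := List.length_pos_iff.2 hv
    obtain ⟨m1, h1, h1'⟩ := ih1 y
    obtain ⟨m2, h2, h2'⟩ := ih2 (y ++ u)
    refine ⟨m1 + m2, h1.append h2, ?_⟩
    have hdisj : Disjoint (fresh D y u) (fresh D (y ++ u) v) := by
      rw [Finset.disjoint_left]
      intro x hx hx'
      rw [mem_fresh] at hx hx'
      exact hx'.2.2.2 hx.2.2.1
    have hnot : (u ++ v) ∉ (fresh D y u).disjUnion (fresh D (y ++ u) v) hdisj := by
      rw [Finset.mem_disjUnion, mem_fresh, mem_fresh, List.length_append]
      rintro (h | h) <;> omega
    have hsub : Finset.cons (u ++ v) ((fresh D y u).disjUnion (fresh D (y ++ u) v) hdisj) hnot ⊆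
        fresh D y (u ++ v) := by
      intro x hx
      rw [Finset.mem_cons, Finset.mem_disjUnion] at hx
      rcases hx with rfl | hx | hx
      · rw [mem_fresh]
        exact ⟨hw, le_rfl, (List.suffix_append _ _).isInfix, hy⟩
      · exact fresh_left hx
      · exact fresh_right hx
    have := Finset.card_le_card hsub
    rw [Finset.card_cons, Finset.card_disjUnion] at this
    omega
  | pow n u e hw _ ih =>
    intro y
    by_cases hy : (pw u e) <:+: y
    · obtain ⟨m, hm, hp⟩ := par_of_infix hy
      exact ⟨m, hp, by omega⟩
    by_cases hu : u = []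
    · subst hu
      exact absurd (by rw [pw_nil]; exact List.nil_infix) hy
    have hup : 0 < u.length := List.length_pos_iff.2 hu
    match e with
    | 0 => exact absurd (by rw [pw_zero]; exact List.nil_infix) hy
    | 1 => simpa [pw] using ih y
    | e + 2 =>
      obtain ⟨m1, h1, h1'⟩ := ih y
      have hlen : (pw u (e + 2)).length = u.length + (pw u (e + 1)).length := by
        rw [pw_succ, List.length_append]
      have hlen2 : 0 < (pw u (e + 1)).length := by
        rw [pw_succ, List.length_append]; omega
      have hpc : Piece (y ++ u) (pw u (e + 1)) := by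
        refine ⟨fun h => by rw [h] at hlen2; simp at hlen2, Or.inr ⟨y.length, ?_, ?_⟩⟩
        · rw [List.length_append]; omega
        · intro t ht
          rw [List.append_assoc, ← pw_succ, List.getElem?_append_right (by omega), pw_succ',
            List.getElem?_append_left (by omega)]
          congr 1
          omega
      refine ⟨m1 + 1, ?_, ?_⟩
      · rw [pw_succ u (e + 1)]
        exact h1.append (Par.single hpc)
      · have hnot : pw u (e + 2) ∉ fresh D y u := by
          rw [mem_fresh]
          rintro ⟨_, h, _⟩
          omega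
        have hsub : Finset.cons (pw u (e + 2)) (fresh D y u) hnot ⊆ fresh D y (pw u (e + 2)) := by
          intro x hx
          rw [Finset.mem_cons] at hx
          rcases hx with rfl | hx
          · rw [mem_fresh]
            exact ⟨hw, le_rfl, (List.suffix_append _ _).isInfix, hy⟩
          · rw [pw_succ u (e + 1)]
            exact fresh_left hx
        have := Finset.card_le_card hsub
        rw [Finset.card_cons] at this
        omega

theorem zs_le_of_ht {D : Finset (List α)} {n : ℕ} {w : List α} (h : Ht D n w) :
    zs w ≤ 1 + 2 * D.card := by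
  obtain ⟨m, h1, h2⟩ := par_of_ht h []
  have h3 := zsFrom_le h1 w (by simp) 0 (by simp)
  have h4 : (fresh D [] w).card ≤ D.card := Finset.card_le_card (fun x hx => (mem_fresh.1 hx).1)
  unfold zs
  omega

/-! ### From the factorization to a program -/

open Classical in
/-- One factor: append a (possibly self-overlapping) copy `f` and a letter. -/
theorem Ht.step {D : Finset (List α)} {n : ℕ} {A : List α} (h : Ht D n A) (j l : ℕ)
    (f : List α) (a : α) (hj : j < A.length) (hf : f.length = l)
    (hfj : ∀ t < l, (A ++ f)[j + t]? = f[t]?) :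
    ∃ D', D'.card ≤ D.card + (4 * n + 11) ∧ Ht D' (n + 5) (A ++ f ++ [a]) := by
  obtain ⟨D1, s1, c1, H1⟩ := h.suf (A.drop j) (List.drop_suffix _ _)
  set w := A.drop j with hw
  have hwl : w.length = A.length - j := by simp [hw]
  have hwp : 0 < w.length := by omega
  set D2 := insert (pw w (l + 1)) D1 with hD2
  have s2 : D1 ⊆ D2 := Finset.subset_insert _ _
  have c2 : D2.card ≤ D1.card + 1 := Finset.card_insert_le _ _
  have H2 : Ht D2 (n + 2) (pw w (l + 1)) :=
    .pow _ _ _ (Finset.mem_insert_self _ _) (H1.mono s2 _ le_rfl)
  -- the string `f` is an initial part of this power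
  have hper : ∀ (e t : ℕ), t < (pw w e).length → (pw w e)[t]? = w[t % w.length]? := by
    intro e
    induction e with
    | zero => intro t ht; simp [pw_zero] at ht
    | succ e ih =>
      intro t ht
      rw [pw_succ] at ht ⊢
      rw [List.length_append] at ht
      by_cases h1 : t < w.length
      · rw [List.getElem?_append_left h1, Nat.mod_eq_of_lt h1]
      · rw [List.getElem?_append_right (by omega), ih _ (by omega),
          Nat.mod_eq_sub_mod (by omega : w.length ≤ t)]
  have hfw : ∀ t < l, f[t]? = w[t % w.length]? := by
    intro t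
    induction t using Nat.strong_induction_on with
    | _ t ih =>
      intro ht
      rw [← hfj t ht]
      by_cases h1 : t < w.length
      · rw [List.getElem?_append_left (by omega), Nat.mod_eq_of_lt h1, hw, List.getElem?_drop]
      · rw [List.getElem?_append_right (by omega),
          show j + t - A.length = t - w.length from by omega, ih _ (by omega) (by omega),
          Nat.mod_eq_sub_mod (by omega : w.length ≤ t)]
  have hlenp : l ≤ (pw w (l + 1)).length := by
    rw [length_pw]
    nlinarith
  have hpre : f <+: pw w (l + 1) := by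
    rw [List.prefix_iff_eq_take, hf]
    apply List.ext_getElem?
    intro t
    by_cases ht : t < l
    · rw [List.getElem?_take_of_lt ht, hfw t ht, hper _ _ (by omega)]
    · rw [List.getElem?_eq_none (by omega), List.getElem?_eq_none]
      rw [List.length_take]
      omega
  obtain ⟨D3, s3, c3, H3⟩ := H2.pre f hpre
  set D4 := insert (A ++ f) D3 with hD4
  have s4 : D3 ⊆ D4 := Finset.subset_insert _ _
  have c4 : D4.card ≤ D3.card + 1 := Finset.card_insert_le _ _
  set D5 := insert [a] D4 with hD5
  have s5 : D4 ⊆ D5 := Finset.subset_insert _ _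
  have c5 : D5.card ≤ D4.card + 1 := Finset.card_insert_le _ _
  set D6 := insert (A ++ f ++ [a]) D5 with hD6
  have s6 : D5 ⊆ D6 := Finset.subset_insert _ _
  have c6 : D6.card ≤ D5.card + 1 := Finset.card_insert_le _ _
  refine ⟨D6, by omega, ?_⟩
  have hA : Ht D6 (n + 3) A :=
    h.mono (s1.trans (s2.trans (s3.trans (s4.trans (s5.trans s6))))) _ (by omega)
  have hF : Ht D6 (n + 3) f := H3.mono (s4.trans (s5.trans s6)) _ le_rfl
  have hAf : Ht D6 (n + 4) (A ++ f) :=
    .cat _ _ _ (s6 (s5 (Finset.mem_insert_self _ _))) hA hF
  refine .cat _ _ _ (Finset.mem_insert_self _ _) hAf ?_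
  exact .short _ _ (s6 (Finset.mem_insert_self _ _)) (by simp)

open Classical in
theorem Ht.letter {D : Finset (List α)} {n : ℕ} {A : List α} (h : Ht D n A) (a : α) :
    ∃ D', D'.card ≤ D.card + (4 * n + 11) ∧ Ht D' (n + 5) (A ++ [a]) := by
  set D5 := insert [a] D with hD5
  have s5 : D ⊆ D5 := Finset.subset_insert _ _
  have c5 : D5.card ≤ D.card + 1 := Finset.card_insert_le _ _
  set D6 := insert (A ++ [a]) D5 with hD6
  have s6 : D5 ⊆ D6 := Finset.subset_insert _ _
  have c6 : D6.card ≤ D5.card + 1 := Finset.card_insert_le _ _
  refine ⟨D6, by omega, ?_⟩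
  exact .cat _ _ _ (Finset.mem_insert_self _ _) (h.mono (s5.trans s6) _ (by omega))
    (.short _ _ (s6 (Finset.mem_insert_self _ _)) (by simp))

theorem exists_program (S : List α) (u : ℕ) (hu : u ≤ S.length) (k : ℕ) (D : Finset (List α))
    (hD : D.card ≤ 10 * k ^ 2 + k + 1) (h : Ht D (5 * k) (S.take u)) :
    ∃ D' : Finset (List α), D'.card ≤ 10 * (k + zsFrom S u) ^ 2 + (k + zsFrom S u) + 1 ∧
      Ht D' (5 * (k + zsFrom S u)) S := by
  by_cases h1 : u < S.length
  · have hl := nextLen_pos S h1
    have hl2 := nextLen_le S h1
    set l := nextLen S u with hldef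
    -- the next factor
    have hstep : ∃ D' : Finset (List α), D'.card ≤ D.card + (4 * (5 * k) + 11) ∧
        Ht D' (5 * k + 5) (S.take (u + l)) := by
      have hlast : u + l - 1 < S.length := by omega
      have htake : S.take (u + l) = S.take u ++ (S.drop u).take (l - 1) ++ [S[u + l - 1]] := by
        have e1 : S.take (u + l) = S.take (u + l - 1) ++ [S[u + l - 1]] := by
          have := List.take_concat_get' S (u + l - 1) hlast
          rw [this]
          congr 1
          omega
        have e2 : S.take (u + l - 1) = S.take u ++ (S.drop u).take (l - 1) := by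
          rw [show u + l - 1 = u + (l - 1) from by omega, List.take_add]
        rw [e1, e2]
      by_cases h2 : l = 1
      · obtain ⟨D', h3, h4⟩ := h.letter (S[u + l - 1])
        refine ⟨D', h3, ?_⟩
        have h5 : (S.drop u).take (l - 1) = [] := by rw [h2]; rfl
        rw [htake, h5, List.append_nil]
        exact h4
      · have hocc := occ_of_lt_nextLen S (u := u) (l := l - 1) (by omega) (by omega)
        rw [occ_iff] at hocc
        obtain ⟨j, hj, hj2⟩ := hocc
        have hul : (S.take u).length = u := by simp; omega
        have hfl : ((S.drop u).take (l - 1)).length = l - 1 := by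
          simp; omega
        obtain ⟨D', h3, h4⟩ := h.step j (l - 1) ((S.drop u).take (l - 1)) (S[u + l - 1])
          (by omega) hfl (by
            intro t ht
            rw [← List.take_add]
            rw [List.getElem?_take_of_lt (by omega), List.getElem?_take_of_lt ht,
              List.getElem?_drop]
            exact hj2 t ht)
        refine ⟨D', h3, ?_⟩
        rw [htake]
        exact h4
    obtain ⟨D1, c1, H1⟩ := hstep
    have hz : zsFrom S u = 1 + zsFrom S (u + l) := by
      rw [zsFrom, dif_pos h1]
    have := exists_program S (u + l) hl2 (k + 1) D1 (by nlinarith)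
      (by rw [show 5 * (k + 1) = 5 * k + 5 from by ring]; exact H1)
    rw [hz, show k + (1 + zsFrom S (u + l)) = k + 1 + zsFrom S (u + l) from by ring]
    exact this
  · have h2 : zsFrom S u = 0 := by rw [zsFrom, dif_neg h1]
    have h3 : S.take u = S := by rw [List.take_of_length_le]; omega
    rw [h2, Nat.add_zero]
    rw [h3] at h
    exact ⟨D, hD, h⟩
termination_by S.length - u

/-- **The self-referencing LZ77 size of every suffix is at most quadratic in the size of the whole
string.** -/
theorem result : ∀ (α : Type) (S : List α) (i : ℕ), zs (S.drop i) ≤ 50 * zs S ^ 2 := by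
  intro α S i
  obtain ⟨D, hD, h⟩ := exists_program S 0 (by omega) 0 {[]} (by simp)
    (.short _ _ (by simp) (by simp))
  rw [Nat.zero_add] at hD h
  change D.card ≤ 10 * zs S ^ 2 + zs S + 1 at hD
  change Ht D (5 * zs S) S at h
  obtain ⟨D', _, h2, h3⟩ := h.suf (S.drop i) (List.drop_suffix _ _)
  have h4 := zs_le_of_ht h3
  rcases Nat.eq_zero_or_pos (zs S) with h0 | h0
  · have hS : S = [] := by
      by_contra hne
      have hpos : 0 < S.length := List.length_pos_iff.2 hne
      unfold zs at h0
      rw [zsFrom, dif_pos hpos] at h0
      omega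
    subst hS
    simp [zs, zsFrom]
  · nlinarith

end Pool.Agent.Results.MP_37e11d_lc.SuffixQuadratic
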